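import Pool.Agent.CYL.Def
import Pool.Agent.CYL.B.Def
import Pool.Agent.CYL.C.Defs
import Pool.Agent.CYL.M.Base

/-!
# CYL, skeleton: the exports of the parts and how they fit together

Everything here is a specification. The owners prove the statements in their own files (then this file imports them).
-/

namespace Pool.Agent.CYL

open Filter Topology
open Pool.Agent.BEX

/-! ## Part A (helper82, helper49, helper46) -/

theorem skel_starStar (L l : ℕ) : StarStar L l := sorry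

theorem skel_comm (L l : ℕ) : Comm L l := sorry

/-- the T-Q relation for `U = (w, -w, ..)`; `w = lam / 2` is added by continuity in Bridge 1 -/
theorem skel_tq {p l : ℕ} (hl : 1 ≤ l) {w : ℝ} (h0 : 0 ≤ w) (h1 : w < Real.pi / 8) (h2 : w ≠ Real.pi / 16)
    {psi : Sts (2 * p) l → ℝ} {t : ℂ → ℂ} (h : IsPsi (Uw (2 * p) w) psi t) :
    TQ (2 * p) l (Uw (2 * p) w) t (qf (Uw (2 * p) w) psi) := sorry

/-- the same for `L` arbitrary, `U = 0` -/
theorem skel_tq0 {L l : ℕ} (hl : 1 ≤ l) {psi : Sts L l → ℝ} {t : ℂ → ℂ}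
    (h : IsPsi (fun _ : Fin L => 0) psi t) :
    TQ L l (fun _ => 0) t (qf (fun _ => 0) psi) := sorry

/-! ## Part PF (helper65, helper99) -/

/-- The homogeneous system has a positive common eigenvector. -/
theorem skel_hom {L l : ℕ} (hl : l = 1 ∨ l = 2) (hL : l < L) :
    ∃ (psi : Sts L l → ℝ) (t : ℂ → ℂ), IsPsi (fun _ : Fin L => 0) psi t ∧ ∀ m, Cls m → 0 < psi m := sorry

/-- It is unique. -/
theorem skel_hom_unique {L l : ℕ} (hl : l = 1 ∨ l = 2) (hL : l < L) {psi psi' : Sts L l → ℝ} {t t' : ℂ → ℂ}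
    (h : IsPsi (fun _ : Fin L => 0) psi t) (h' : IsPsi (fun _ : Fin L => 0) psi' t') : psi = psi' ∧ t = t' := sorry

/-- The staggered family and the fusion limit. -/
theorem skel_family {p l : ℕ} (hl : l = 1 ∨ l = 2) (hp : l ≤ p) (psi0 : Sts p l → ℝ)
    (h0 : ∀ m, 0 ≤ psi0 m) (h1 : ∀ m, ¬ Cls m → psi0 m = 0) (h2 : ∑ m, psi0 m = 1)
    (h3 : l < p → ∃ t, IsPsi (fun _ : Fin p => 0) psi0 t) : Nonempty (Family p l psi0) := sorry

/-! ## Bridge 1 (helper53) -/

/-- the eigenvalue is continuous in `v` (`t v = ∑ m, psi m * Tf v U chi m`) -/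
theorem skel_cont {L l : ℕ} {U : Fin L → ℂ} {psi : Sts L l → ℝ} {t : ℂ → ℂ} (h : IsPsi U psi t) : Continuous t := sorry

theorem skel_bridge1 {p l : ℕ} (hl : l = 1 ∨ l = 2) (hp : l ≤ p) {psi0 : Sts p l → ℝ} (F : Family p l psi0) :
    ∃ D : B.BData p (2 * p - l) l, (∀ w u, D.q w u = qf (Uw (2 * p) w) (F.psi w) u) ∧
      (∀ w ∈ Set.Ico 0 B.la, ∀ u, D.T w u = F.t w u) ∧ B.BLim D (qf (fun _ => 0) psi0) := sorry

/-! ## Part B (helper68, helper48, helper32) -/

theorem skel_B {p m l : ℕ} (D : B.BData p m l) (qh : ℂ → ℂ) (hB : B.BLim D qh) (m1 : ℕ) (h : p = m1 + l)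
    (hq : B.HB p m1 qh) : B.HB (2 * p) m (D.q 0) := sorry

/-! ## Bridge 2 (helper17) -/

/-- From `H(L)` and the T-Q relation at `u = lam` to the data of part C. -/
theorem skel_bridge2 {L l m : ℕ} (hl : l = 1 ∨ l = 2) (hL : L = m + l) (hm : 1 ≤ m) (q t : ℂ → ℂ)
    (hq : B.HB L m q) (htq : TQ L l (fun _ => 0) t q) (hcont : Continuous t) :
    ∃ r : Roots l, r.L = L ∧ r.m = m ∧
      Real.exp r.elog = ‖t lam‖ / Real.sin (3 * Real.pi / 8) ^ L := sorry

/-! ## Part C (helper96, helper40, ..) -/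

/-- The asymptotics, along any sequence with bounded `elog`. -/
theorem skel_C {l : ℕ} (hl : l = 1 ∨ l = 2) (r : ℕ → Roots l) (hr : Tendsto (fun k => ((r k).L : ℝ)) atTop atTop)
    (C : ℝ) (hC : ∀ k, |(r k).elog| ≤ C) :
    Tendsto (fun k => ((r k).L : ℝ) * (r k).elog) atTop
      (𝓝 (-(Real.sqrt 3 * Real.pi * (9 * (l : ℝ) ^ 2 - 4) / 48))) := sorry

/-! ## Parts P9 + D (helper12, helper55, helper56, helper37, helper20, helper58)

`ZZ L l N` stands for helper55's `Zc L l N` as a real number. -/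

theorem skel_D (ZZ : ℕ → ℕ → ℕ → ℝ) {L l : ℕ} (hl : l = 1 ∨ l = 2) (hL : l < L)
    {psi : Sts L l → ℝ} {t : ℂ → ℂ} (h : IsPsi (fun _ : Fin L => 0) psi t) :
    ∃ Lam : ℝ, t lam = (Real.sin (3 * Real.pi / 8) : ℂ) ^ L * Lam ∧
      Tendsto (fun N : ℕ => Real.log (ZZ L l N) / N) atTop (𝓝 (Real.log Lam)) ∧
      0 < Lam ∧ 2 * (l : ℝ) * Real.log (1 / (2 * Real.cos (Real.pi / 8))) ≤ Real.log Lam ∧ Real.log Lam ≤ 0 := sorry

/-! ## Assembly -/

/-- one doubling -/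
theorem HB_double {l : ℕ} (hl : l = 1 ∨ l = 2) {p : ℕ} (hp : l ≤ p)
    (ih : ∀ psi0 : Sts p l → ℝ, (∀ m, 0 ≤ psi0 m) → (∀ m, ¬ Cls m → psi0 m = 0) → ∑ m, psi0 m = 1 →
      (l < p → ∃ t, IsPsi (fun _ : Fin p => 0) psi0 t) → B.HB p (p - l) (qf (fun _ => 0) psi0))
    (psi : Sts (2 * p) l → ℝ) (h3 : ∃ t, IsPsi (fun _ : Fin (2 * p) => 0) psi t) :
    B.HB (2 * p) (2 * p - l) (qf (fun _ => 0) psi) := by
  have hl1 : 1 ≤ l := by rcases hl with h | h <;> omega
  obtain ⟨psi0, a0, a1, a2, a3⟩ : ∃ psi0 : Sts p l → ℝ, (∀ m, 0 ≤ psi0 m) ∧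
      (∀ m, ¬ Cls m → psi0 m = 0) ∧ ∑ m, psi0 m = 1 ∧
      (l < p → ∃ t, IsPsi (fun _ : Fin p => 0) psi0 t) := by
    rcases hp.lt_or_eq with h | h
    · obtain ⟨psi0, t, h5, -⟩ := skel_hom hl h
      exact ⟨psi0, h5.nonneg, h5.supp, h5.sum, fun _ => ⟨t, h5⟩⟩
    · subst h
      obtain ⟨psi0, a0, a1, a2⟩ := exists_base hl
      exact ⟨psi0, a0, a1, a2, fun h => absurd h (lt_irrefl _)⟩
  obtain ⟨F⟩ := skel_family hl hp psi0 a0 a1 a2 a3
  obtain ⟨D, d1, d2, d3⟩ := skel_bridge1 hl hp F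
  have h5 := skel_B D _ d3 (p - l) (by omega) (ih psi0 a0 a1 a2 a3)
  have hpi := Real.pi_pos
  have h6 := F.isPsi 0 le_rfl (by positivity)
  have h7 : Uw (2 * p) 0 = fun _ => 0 := by
    funext i
    simp [Uw]
  rw [h7] at h6
  obtain ⟨t, ht⟩ := h3
  obtain ⟨h8, -⟩ := skel_hom_unique hl (by omega) h6 ht
  have h9 : D.q 0 = qf (fun _ => 0) psi := by
    funext u
    rw [d1 0 u, h7, h8]
  rwa [h9] at h5

/-- `H(2^k)`, by induction. -/
theorem HB_pow (l : ℕ) (hl : l = 1 ∨ l = 2) (k : ℕ) : ∀ L : ℕ, L = 2 ^ k → l ≤ L → ∀ psi : Sts L l → ℝ,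
    (∀ m, 0 ≤ psi m) → (∀ m, ¬ Cls m → psi m = 0) → ∑ m, psi m = 1 →
    (l < L → ∃ t, IsPsi (fun _ : Fin L => 0) psi t) →
    B.HB L (L - l) (qf (fun _ => 0) psi) := by
  induction k with
  | zero =>
    intro L hL hk psi h0 h1 h2 h3
    have : l = 1 := by rcases hl with h | h <;> [exact h; (simp at hL; omega)]
    subst this
    have : L = 1 := by simpa using hL
    subst this
    simpa using HB_base psi h1 h2
  | succ k ih =>
    intro L hL hk psi h0 h1 h2 h3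
    by_cases h : l < L
    · rw [pow_succ'] at hL
      subst hL
      refine HB_double hl ?_ (fun psi0 => ih (2 ^ k) rfl ?_ psi0) psi (h3 h)
      all_goals
        rcases hl with h | h
        · have := Nat.one_le_two_pow (n := k); omega
        · rcases k with _ | k
          · simp at *; omega
          · have := Nat.one_le_two_pow (n := k); rw [pow_succ]; omega
    · have : L = l := by omega
      subst this
      simpa using HB_base psi h1 h2

/-- the limit for one `l` (`ZZ L l N` = helper55's `Zc L l N` as a real number) -/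
theorem skel_main (ZZ : ℕ → ℕ → ℕ → ℝ) {l : ℕ} (hl : l = 1 ∨ l = 2) :
    ∃ z : ℕ → ℝ, (∀ k, 2 ≤ k → Tendsto (fun N : ℕ => Real.log (ZZ (2 ^ k) l N) / N) atTop (𝓝 (z k))) ∧
      Tendsto (fun k => (2 : ℝ) ^ k * z k) atTop
        (𝓝 (-(Real.sqrt 3 * Real.pi * (9 * (l : ℝ) ^ 2 - 4) / 48))) := by
  have hl1 : 1 ≤ l := by rcases hl with h | h <;> omega
  have key : ∀ k, 2 ≤ k → ∃ r : Roots l, r.L = 2 ^ k ∧
      Tendsto (fun N : ℕ => Real.log (ZZ (2 ^ k) l N) / N) atTop (𝓝 r.elog) ∧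
      2 * (l : ℝ) * Real.log (1 / (2 * Real.cos (Real.pi / 8))) ≤ r.elog ∧ r.elog ≤ 0 := by
    intro k hk
    have hL : l < 2 ^ k := by
      obtain ⟨k, rfl⟩ := Nat.exists_eq_add_of_le hk
      have := Nat.one_le_two_pow (n := k)
      rw [pow_add]
      rcases hl with h | h <;> omega
    obtain ⟨psi, t, h, -⟩ := skel_hom hl hL
    have h1 := HB_pow l hl k (2 ^ k) rfl hL.le psi h.nonneg h.supp h.sum (fun _ => ⟨t, h⟩)
    obtain ⟨r, r1, r2, r3⟩ := skel_bridge2 hl (by omega : 2 ^ k = (2 ^ k - l) + l) (by omega) _ t h1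
      (skel_tq0 hl1 h) (skel_cont h)
    obtain ⟨Lam, e1, e2, e3, e4, e5⟩ := skel_D ZZ hl hL h
    have hs : 0 < Real.sin (3 * Real.pi / 8) := by
      apply Real.sin_pos_of_pos_of_lt_pi <;> nlinarith [Real.pi_pos]
    have h2 : r.elog = Real.log Lam := by
      rw [e1, norm_mul, norm_pow, Complex.norm_real, Complex.norm_real, Real.norm_of_nonneg hs.le,
        Real.norm_of_nonneg e3.le, mul_div_cancel_left₀ _ (by positivity)] at r3
      rw [← r3, Real.log_exp]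
    exact ⟨r, r1, h2 ▸ e2, h2 ▸ e4, h2 ▸ e5⟩
  have : Nonempty (Roots l) := ⟨(key 2 le_rfl).choose⟩
  choose! r hr using key
  refine ⟨fun k => (r k).elog, fun k hk => (hr k hk).2.1, ?_⟩
  have h1 := skel_C hl (fun k => r (k + 2)) ?_ |2 * (l : ℝ) * Real.log (1 / (2 * Real.cos (Real.pi / 8)))| ?_
  · rw [← tendsto_add_atTop_iff_nat 2]
    refine h1.congr fun k => ?_
    rw [(hr (k + 2) (by omega)).1]
    push_cast
    rfl
  · have : (fun k => ((r (k + 2)).L : ℝ)) = fun k => (2 : ℝ) ^ (k + 2) := by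
      funext k
      rw [(hr (k + 2) (by omega)).1]
      push_cast
      rfl
    rw [this]
    exact (tendsto_pow_atTop_atTop_of_one_lt (by norm_num)).comp (tendsto_add_atTop_nat 2)
  · intro k
    obtain ⟨-, -, h3, h4⟩ := hr (k + 2) (by omega)
    rw [abs_of_nonpos h4, abs_of_nonpos (h3.trans h4)]
    linarith

end Pool.Agent.CYL
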